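import Pool.Agent.Helper66_Extrap.Main

set_option autoImplicit false

/-!
# The critical extrapolation factor for the gradient norm is `1 + O(1 / (N √(log N)))`

For every `L, D > 0` and every stepsize `h ∈ (0, 1]`, the critical factor satisfies
`c_crit(N, h) ≤ 1 + 56 / (h² N √(log N))` for all `N ≥ exp (4 / h)`.  In particular
`N (c_crit(N, h) - 1)` does not stay above any positive constant, so the conjectured
`c_crit = 1 + Θ(1 / N)` is false for every `h ∈ (0, 1]`.

The violating functions live on `ℝ²`: a Huber function with threshold `2`, shifted by `2κe` and tilted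
by the linear function `κ⟨e, ·⟩`, plus the one-sided quadratic `min(⟨e,x⟩, 0)² / 4`.  The tilt makes
the gradient turn at constant rate on the logarithmic scale, so with `κ ~ 1 / log N` the gradient at
`x_N` is far from parallel to `x_0 - x_N` while its norm is still `D / (N h) (1 - O(κ))`; the
one-sided quadratic then increases the gradient norm on the extrapolated segment.
-/

namespace Pool.Agent.Results.MP_e1a21f_an.CritFactor

open Pool.Agent.Helper66_Extrap

/-- `c_crit(N, h) ≤ 1 + 56 / (h² N √(log N))` for all `N ≥ exp (4 / h)`. -/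
theorem result (L D h : ℝ) (hL : 0 < L) (hD : 0 < D) (hh : 0 < h) (hh1 : h ≤ 1)
    (N : ℕ) (hN : Real.exp (4 / h) ≤ (N : ℝ)) :
    cCrit L D h N ≤ ((1 + 56 / (h ^ 2 * N * Real.sqrt (Real.log N)) : ℝ) : EReal) :=
  cCrit_le hL hD hh hh1 N hN

end Pool.Agent.Results.MP_e1a21f_an.CritFactor
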